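import Mathlib
import Pool.Agent.W764.FB.Comp

set_option autoImplicit false

open MeasureTheory

/-- **Complete convergence of the `×q` averages characterises Lebesgue measure.**
Let `p` be a prime and `q ≥ 2` an integer which `p` does not divide (for instance `p = 2`, `q = 3`,
or `p = 3`, `q = 2`).  An atomless probability measure `μ` on the circle `R/Z`, invariant under
`x ↦ p x` and `x ↦ q x`, is Lebesgue measure if and only if the averages of the characters along
`q ^ i` converge completely (in the sense of Hsu and Robbins) to their means: for all `m` and all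
`t > 0` the probabilities that `(1 / L) ∑_{i < L} e (m q ^ i x)` is at distance more than `t` from
the mean of `e (m x)` have a finite sum over `L`. -/
theorem Pool.Agent.Results.MP_e27144_an.CompleteConvergence.result :
    ∀ p q : ℕ, p.Prime → 2 ≤ q → ¬ p ∣ q →
      ∀ μ : Measure UnitAddCircle, IsProbabilityMeasure μ → (∀ x, μ {x} = 0) →
        MeasurePreserving (fun x : UnitAddCircle => p • x) μ μ →
        MeasurePreserving (fun x : UnitAddCircle => q • x) μ μ →
        (μ = volume ↔
          ∀ (m : ℤ) (t : ℝ), 0 < t → Summable fun L : ℕ => μ.real {x | t <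
            ‖((L : ℂ))⁻¹ * ∑ i ∈ Finset.range L, fourier m ((q ^ i) • x) -
              ∫ y, fourier m y ∂μ‖}) := by
  intro p q hp hq hpq μ hμ hna hip hiq
  constructor
  · intro h
    subst h
    exact Pool.Agent.W764.FB.cc_vol hq
  · intro h
    exact Pool.Agent.W764.FB.eq_volume_of_cc hp hq hpq μ hna hip hiq h
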