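import Pool.Agent.W764.HL.Leb

/-!
Let `p, q ≥ 2` be coprime. Outside a countable set of points of the circle, and for one of any two
distinct close points, there are long multiplicative windows `{n = p ^ a * q ^ b : X ≤ n < H X}` in
which the orbit contains at least half of Lebesgue measure. Hence outside a countable set a point
which is generic along windows for a jointly ergodic measure is generic for Lebesgue measure.
-/

set_option autoImplicit false

open MeasureTheory Filter Topology

namespace Pool.Agent.Results.MP_e27144_an.HalfLebesgue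

open Classical in
/-- The window of the numbers `n = p ^ a * q ^ b` with `X ≤ n < Y`. -/
noncomputable def window (p q : ℕ) (X Y : ℝ) : Finset ℕ :=
  (Finset.range ⌈Y⌉₊).filter fun n => (∃ a b : ℕ, n = p ^ a * q ^ b) ∧ X ≤ n

open Classical in
/-- The number of the `n` in the window such that `n x` lies in the closed arc of centre `c` and
radius `r`. -/
noncomputable def visits (p q : ℕ) (X Y : ℝ) (x c : UnitAddCircle) (r : ℝ) : ℕ :=
  ((window p q X Y).filter fun n => ‖n • x - c‖ ≤ r).card

/-- The point `x` is generic for the measure `μ` along windows: for every continuous function the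
averages over the windows `X ≤ n < H X` are close to the integral, for large `H` and for
`X ≥ X₀(H)`. -/
def WindowGeneric (p q : ℕ) (μ : Measure UnitAddCircle) (x : UnitAddCircle) : Prop :=
  ∀ f : UnitAddCircle → ℝ, Continuous f → ∀ ε : ℝ, 0 < ε → ∃ H₀ : ℕ, ∀ H : ℕ, H₀ ≤ H →
    ∃ X₀ : ℝ, ∀ X : ℝ, X₀ ≤ X →
      |∑ n ∈ window p q X (H * X), f (n • x) - (∫ y, f y ∂μ) * (window p q X (H * X)).card| ≤
        ε * (window p q X (H * X)).card

/-- Ergodicity for the joint action of `×p` and `×q`. -/
def JointlyErgodic (p q : ℕ) (μ : Measure UnitAddCircle) : Prop :=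
  ∀ E : Set UnitAddCircle, MeasurableSet E → (fun x : UnitAddCircle => p • x) ⁻¹' E = E →
    (fun x : UnitAddCircle => q • x) ⁻¹' E = E → μ E = 0 ∨ μ E = 1

/-- **Generic points and half of Lebesgue measure in long windows.** Let `p, q ≥ 2` be coprime.
1. There is a countable set `E` such that
  (a) every point outside `E` has, for all large ratios `H`, windows `X ≤ n < H X` with `X`
  arbitrarily large in which all arcs are visited with frequency at least half of their length, up
  to `ε`;
  (b) if a point outside `E` is window-generic for a Borel probability measure `μ`, then `μ` is at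
  least one half of Lebesgue measure, and `μ` is Lebesgue measure if `μ` is jointly ergodic.
2. A measure with a window-generic point is invariant under `×p` and `×q`.
3. Lebesgue almost every point is window-generic for Lebesgue measure.
4. For distinct points `x, y` whose distance `d` is small enough, with respect to `ε` and `H` only,
there is `α` such that in the window `1 / d ≤ n < H / d` all arcs are visited by the orbit of `x`
with frequency at least `α` times their length and by the orbit of `y` with frequency at least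
`1 - α` times their length, up to `ε`. -/
theorem result (p q : ℕ) (hp : 2 ≤ p) (hq : 2 ≤ q) (hpq : Nat.Coprime p q) :
    (∃ E : Set UnitAddCircle, E.Countable ∧
      (∀ ε : ℝ, 0 < ε → ∃ H₀ : ℕ, ∀ H : ℕ, H₀ ≤ H →
        ∀ x : UnitAddCircle, x ∉ E → ∀ X₀ : ℝ, ∃ X : ℝ, X₀ ≤ X ∧
          (window p q X (H * X)).Nonempty ∧ ∀ c : UnitAddCircle, ∀ r : ℝ, 0 ≤ r → r ≤ 1 / 2 →
            (r - ε) * (window p q X (H * X)).card ≤ visits p q X (H * X) x c r) ∧
      (∀ x : UnitAddCircle, x ∉ E → ∀ μ : Measure UnitAddCircle, IsProbabilityMeasure μ →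
        WindowGeneric p q μ x →
        (∀ s : Set UnitAddCircle, (2 : ENNReal)⁻¹ * (volume : Measure UnitAddCircle) s ≤ μ s) ∧
        (JointlyErgodic p q μ → μ = volume))) ∧
    (∀ μ : Measure UnitAddCircle, IsProbabilityMeasure μ → (∃ x, WindowGeneric p q μ x) →
      MeasurePreserving (fun y : UnitAddCircle => p • y) μ μ ∧
      MeasurePreserving (fun y : UnitAddCircle => q • y) μ μ) ∧
    (∀ᵐ x ∂(volume : Measure UnitAddCircle), WindowGeneric p q volume x) ∧
    (∀ ε : ℝ, 0 < ε → ∃ H₀ : ℝ, 1 < H₀ ∧ ∀ H : ℝ, H₀ ≤ H → ∃ δ : ℝ, 0 < δ ∧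
      ∀ x y : UnitAddCircle, x ≠ y → ‖x - y‖ < δ →
        (window p q (1 / ‖x - y‖) (H / ‖x - y‖)).Nonempty ∧ ∃ α : ℝ, 0 ≤ α ∧ α ≤ 1 ∧
          ∀ c : UnitAddCircle, ∀ r : ℝ, 0 ≤ r → r ≤ 1 / 2 →
            (2 * r * α - ε) * (window p q (1 / ‖x - y‖) (H / ‖x - y‖)).card ≤
              visits p q (1 / ‖x - y‖) (H / ‖x - y‖) x c r ∧
            (2 * r * (1 - α) - ε) * (window p q (1 / ‖x - y‖) (H / ‖x - y‖)).card ≤
              visits p q (1 / ‖x - y‖) (H / ‖x - y‖) y c r) := by
  refine ⟨Pool.Agent.W764.HL.generic hp hq hpq, ?_,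
    Pool.Agent.W764.HL.ae_generic hp hq hpq, fun ε hε => Pool.Agent.W764.HL.pair hp hq hpq hε⟩
  rintro μ hμ ⟨x, hx⟩
  exact ⟨Pool.Agent.W764.HL.wgen_inv hp hq hpq hx (Or.inl rfl),
    Pool.Agent.W764.HL.wgen_inv hp hq hpq hx (Or.inr rfl)⟩

end Pool.Agent.Results.MP_e27144_an.HalfLebesgue
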