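import Mathlib
import Pool.Agent.W764.FB.Mix
import Pool.Agent.W764.FB.Comp

set_option autoImplicit false

open MeasureTheory

/-- **Quantitative mixing characterises Lebesgue measure among the `×p, ×q` invariant measures.**
Let `p` be a prime and `q ≥ 2` an integer which `p` does not divide (for instance `p = 2`, `q = 3`).
Let `μ` be an atomless probability measure on the circle `R/Z`, invariant under `x ↦ p x` and
`x ↦ q x`; no positivity of entropy and no ergodicity is assumed.  The following are equivalent: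
(1) `μ` is Lebesgue measure;
(2) (polynomial mixing of order larger than one, on characters) for every `m` there are `C` and
`δ > 0` such that the correlation of `e (m p ^ a q ^ i x)` and `e (m p ^ b q ^ j x)` is at most
`C (1 + |a - b| + |i - j|) ^ (-1 - δ)`;
(3) (diffusive sums) for every `m` there are `C` and `ε > 0` such that the variance of
`∑_{a < r, i < L} e (m p ^ a q ^ i x)` is at most `C r ^ (2 - ε) L` for all `r, L ≥ 1`. -/
theorem Pool.Agent.Results.MP_e27144_an.MixingRates.result :
    ∀ p q : ℕ, p.Prime → 2 ≤ q → ¬ p ∣ q →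
      ∀ μ : Measure UnitAddCircle, IsProbabilityMeasure μ → (∀ x, μ {x} = 0) →
        MeasurePreserving (fun x : UnitAddCircle => p • x) μ μ →
        MeasurePreserving (fun x : UnitAddCircle => q • x) μ μ →
        List.TFAE [
          μ = volume,
          ∀ m : ℤ, ∃ C δ : ℝ, 0 < δ ∧ ∀ a i b j : ℕ,
            ‖(∫ x, fourier m ((p ^ a * q ^ i) • x) *
                (starRingEnd ℂ) (fourier m ((p ^ b * q ^ j) • x)) ∂μ) -
              ((‖∫ x, fourier m x ∂μ‖ ^ 2 : ℝ) : ℂ)‖ ≤
              C / (1 + |(a : ℝ) - b| + |(i : ℝ) - j|) ^ (1 + δ),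
          ∀ m : ℤ, ∃ C ε : ℝ, 0 < ε ∧ ∀ r L : ℕ, 1 ≤ r → 1 ≤ L →
            ∫ x, ‖∑ a ∈ Finset.range r, ∑ i ∈ Finset.range L,
              (fourier m ((p ^ a * q ^ i) • x) - ∫ y, fourier m y ∂μ)‖ ^ 2 ∂μ ≤
              C * (r : ℝ) ^ (2 - ε) * L] := by
  intro p q hp hq hpq μ hμ hna hip hiq
  tfae_have 1 → 2 := by
    intro h
    subst h
    exact Pool.Agent.W764.FB.mix_vol hp hq hpq
  tfae_have 2 → 3 := fun h => Pool.Agent.W764.FB.var_of_mix hip hiq h
  tfae_have 3 → 1 := fun h => Pool.Agent.W764.FB.eq_volume_of_var hp hq hpq μ hna hip h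
  tfae_finish
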